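import Pool.Agent.H575.ESB.StmK
import Pool.Graph.R_pool_sql_team_seeded_3997aac3.Q210.ESB.FamA
import Pool.Graph.R_pool_sql_team_seeded_3997aac3.Q151.ESB.IdlA
import Pool.Graph.R_pool_sql_team_seeded_3997aac3.Q239.EL.DESC

/-!
# Project ESB (helper575), job FAM: from weighted sums over twists to sums over extensions
-/

set_option autoImplicit false

namespace Pool.Agent.H643.ESB

open NumberField IsDedekindDomain Finset
open Pool.Agent.Q51.EL (Par)
open Pool.Agent.H575.ESB

section par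

variable {F : Type} [Field F] [NumberField F]

/-- the valuation as an integer -/
noncomputable def vz (v : HeightOneSpectrum (𝓞 F)) (x : F) : ℤ := WithZero.log (v.valuation F x)

lemma val_eq (v : HeightOneSpectrum (𝓞 F)) {x : F} (hx : x ≠ 0) :
    v.valuation F x = WithZero.exp (vz v x) := by
  unfold vz
  rw [WithZero.exp_log]
  exact (Valuation.ne_zero_iff _).2 hx

lemma par_iff (v : HeightOneSpectrum (𝓞 F)) {x : F} (hx : x ≠ 0) :
    Par v x 1 ↔ Odd (vz v x) := by
  constructor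
  · rintro ⟨k, hk⟩
    rw [val_eq v hx, WithZero.exp_inj] at hk
    exact ⟨k, by rw [hk]; ring⟩
  · rintro ⟨k, hk⟩
    exact ⟨k, by rw [val_eq v hx, hk]; congr 1; ring⟩

lemma not_par_zero (v : HeightOneSpectrum (𝓞 F)) : ¬ Par v (0 : F) 1 := by
  rintro ⟨k, hk⟩
  rw [map_zero] at hk
  exact WithZero.exp_ne_zero hk.symm

lemma vz_mul (v : HeightOneSpectrum (𝓞 F)) {x y : F} (hx : x ≠ 0) (hy : y ≠ 0) :
    vz v (x * y) = vz v x + vz v y := by
  have h1 := val_eq v (mul_ne_zero hx hy)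
  rw [map_mul, val_eq v hx, val_eq v hy, ← WithZero.exp_add, WithZero.exp_inj] at h1
  exact h1.symm

/-- equal classes have equal parities -/
lemma par_congr (v : HeightOneSpectrum (𝓞 F)) {x y : F} (hx : x ≠ 0) (hy : y ≠ 0)
    (h : IsSquare (x * y)) : Par v x 1 ↔ Par v y 1 := by
  obtain ⟨z, hz⟩ := h
  have hz0 : z ≠ 0 := by
    rintro rfl
    rw [mul_zero] at hz
    exact mul_ne_zero hx hy hz
  rw [par_iff v hx, par_iff v hy]
  have h1 : vz v x + vz v y = vz v z + vz v z := by
    rw [← vz_mul v hx hy, hz, vz_mul v hz0 hz0]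
  have h2 : vz v x = vz v y + 2 * (vz v z - vz v y) := by linarith
  rw [h2, Int.odd_add]
  constructor
  · intro h; exact h.2 ⟨vz v z - vz v y, by ring⟩
  · intro h; exact ⟨fun _ => ⟨vz v z - vz v y, by ring⟩, fun _ => h⟩

open scoped Classical in
lemma par_prod (v : HeightOneSpectrum (𝓞 F)) {m : ℕ} (b : Fin m → F) (hb : ∀ j, b j ≠ 0)
    (S : Finset (Fin m)) :
    Par v (∏ j ∈ S, b j) 1 ↔ Odd ((univ.filter fun j => Par v (b j) 1) ∩ S).card := by
  induction S using Finset.induction_on with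
  | empty =>
    rw [Finset.prod_empty, par_iff v one_ne_zero]
    simp [vz]
  | insert a S ha ih =>
    rw [Finset.prod_insert ha, par_iff v (mul_ne_zero (hb a) (Finset.prod_ne_zero_iff.2
      fun j _ => hb j)), vz_mul v (hb a) (Finset.prod_ne_zero_iff.2 fun j _ => hb j)]
    rw [par_iff v (Finset.prod_ne_zero_iff.2 fun j _ => hb j)] at ih
    by_cases h : Par v (b a) 1
    · have e1 : (univ.filter fun j => Par v (b j) 1) ∩ insert a S =
          insert a ((univ.filter fun j => Par v (b j) 1) ∩ S) := by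
        rw [Finset.inter_insert_of_mem (by simpa using h)]
      have e2 : a ∉ (univ.filter fun j => Par v (b j) 1) ∩ S := fun h => ha (mem_inter.1 h).2
      rw [e1, Finset.card_insert_of_notMem e2, Nat.odd_add_one, ← ih, Int.odd_add']
      have := (par_iff v (hb a)).1 h
      rw [Int.not_odd_iff_even]
      constructor
      · intro h1
        by_contra h2
        rw [Int.not_even_iff_odd] at h2
        have h3 := h1.1
        by_cases h4 : Even (vz v (b a))
        · exact (Int.not_even_iff_odd.2 this) h4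
        · exact h4 (h1.1 h2)
      · intro h1
        exact ⟨fun h2 => absurd h1 (Int.not_even_iff_odd.2 h2),
          fun h2 => absurd this (Int.not_odd_iff_even.2 h2)⟩
    · have e1 : (univ.filter fun j => Par v (b j) 1) ∩ insert a S =
          (univ.filter fun j => Par v (b j) 1) ∩ S := by
        rw [Finset.inter_insert_of_notMem (by simpa using h)]
      rw [e1, ← ih]
      rw [par_iff v (hb a), Int.not_odd_iff_even] at h
      rw [Int.odd_add']
      exact ⟨fun h1 => h1.2 h, fun h1 => ⟨fun _ => h, fun _ => h1⟩⟩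

lemma par_finite (x : F) : {v : HeightOneSpectrum (𝓞 F) | Par v x 1}.Finite := by
  by_cases hx : x = 0
  · subst hx
    refine Set.finite_empty.subset ?_
    intro v hv
    exact not_par_zero v hv
  · refine (Pool.Agent.Q239.EL.supp_finite hx).subset ?_
    intro v hv h5
    obtain ⟨k, hk⟩ := hv
    rw [h5, ← WithZero.exp_zero, WithZero.exp_inj] at hk
    omega

/-! ### representatives of the classes modulo squares -/

/-- equality modulo squares -/
def rel (x y : F) : Prop := (x = 0 ∧ y = 0) ∨ (x ≠ 0 ∧ y ≠ 0 ∧ IsSquare (x * y))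

omit [NumberField F] in
lemma rel_equiv : Equivalence (rel (F := F)) := by
  refine ⟨fun x => ?_, fun {x y} h => ?_, fun {x y z} h1 h2 => ?_⟩
  · by_cases hx : x = 0
    · exact Or.inl ⟨hx, hx⟩
    · exact Or.inr ⟨hx, hx, ⟨x, rfl⟩⟩
  · rcases h with ⟨h1, h2⟩ | ⟨h1, h2, h3⟩
    · exact Or.inl ⟨h2, h1⟩
    · exact Or.inr ⟨h2, h1, by rwa [mul_comm]⟩
  · rcases h1 with ⟨a1, a2⟩ | ⟨a1, a2, s, hs⟩
    · rcases h2 with ⟨b1, b2⟩ | ⟨b1, -, -⟩
      · exact Or.inl ⟨a1, b2⟩
      · exact absurd a2 b1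
    · rcases h2 with ⟨b1, -⟩ | ⟨b1, b2, t, ht⟩
      · exact absurd b1 a2
      · refine Or.inr ⟨a1, b2, ⟨s * t / y, ?_⟩⟩
        have : s * t / y * (s * t / y) = (s * s) * (t * t) / (y * y) := by
          field_simp
        rw [this, ← hs, ← ht]
        field_simp

/-- the setoid -/
def std : Setoid F := ⟨rel, rel_equiv⟩

/-- a representative -/
noncomputable def rep (x : F) : F := Quotient.out (Quotient.mk (std (F := F)) x)

omit [NumberField F] in
lemma rel_rep (x : F) : rel (rep x) x := Quotient.mk_out (s := std (F := F)) x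

omit [NumberField F] in
lemma rep_eq {x y : F} : rep x = rep y ↔ rel x y := by
  constructor
  · intro h
    have h1 := rel_equiv.symm (rel_rep x)
    rw [h] at h1
    exact rel_equiv.trans h1 (rel_rep y)
  · intro h
    unfold rep
    have : Quotient.mk (std (F := F)) x = Quotient.mk (std (F := F)) y := Quotient.sound h
    rw [this]

omit [NumberField F] in
lemma rep_ne {x : F} (hx : x ≠ 0) : rep x ≠ 0 := by
  rcases rel_rep x with ⟨-, h⟩ | ⟨h, -, -⟩
  · exact absurd h hx
  · exact h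

omit [NumberField F] in
lemma rep_sq {x : F} (hx : x ≠ 0) : IsSquare (rep x * x) := by
  rcases rel_rep x with ⟨-, h⟩ | ⟨-, -, h⟩
  · exact absurd h hx
  · exact h

omit [NumberField F] in
/-- different representatives are not equal modulo squares -/
lemma rep_nsq {x y : F} (hx : x ≠ 0) (hy : y ≠ 0) (h : rep x ≠ rep y) :
    ¬ IsSquare (rep x * rep y) := by
  intro h1
  apply h
  rw [rep_eq]
  exact rel_equiv.trans (rel_equiv.symm (rel_rep x))
    (rel_equiv.trans (Or.inr ⟨rep_ne hx, rep_ne hy, h1⟩) (rel_rep y))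

lemma par_rep (v : HeightOneSpectrum (𝓞 F)) {x : F} (hx : x ≠ 0) :
    Par v (rep x) 1 ↔ Par v x 1 := par_congr v (rep_ne hx) hx (rep_sq hx)

/-- the primes with odd valuation -/
noncomputable def sp (x : F) : Finset (HeightOneSpectrum (𝓞 F)) := (par_finite x).toFinset

lemma mem_sp {x : F} {v : HeightOneSpectrum (𝓞 F)} : v ∈ sp x ↔ Par v x 1 := by
  rw [sp, Set.Finite.mem_toFinset]; rfl

lemma cond_eq (x : F) : ((Pool.Agent.H575.ES.cond x : ℕ) : ℝ) = ∏ v ∈ sp x, ((Ideal.absNorm v.asIdeal : ℕ) : ℝ) := by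
  have h1 : Pool.Agent.H575.ES.cond x = ∏ v ∈ sp x, Ideal.absNorm v.asIdeal := by
    unfold Pool.Agent.H575.ES.cond sp
    exact finprod_mem_eq_finite_toFinset_prod
      (fun v : HeightOneSpectrum (𝓞 F) => Ideal.absNorm v.asIdeal) (par_finite x)
  rw [h1, Nat.cast_prod]

lemma omg_eq (x : F) : omg x = (sp x).card := by
  unfold omg sp
  exact Set.ncard_eq_toFinset_card _ (par_finite x)

end par

section field

variable {F : Type} [Field F] [NumberField F] {m : ℕ}

lemma gen_sub {K K' : IntermediateField F (AlgebraicClosure F)} {b b' : Fin m → F}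
    (h : Gen K b) (h' : Gen K' b') (hbb : ∀ j, IsSquare (b j * b' j)) : K ≤ K' := by
  rw [h.adj, IntermediateField.adjoin_le_iff]
  rintro s ⟨j, hs⟩
  obtain ⟨s', hs', hs2⟩ := h'.sqr j
  obtain ⟨z, hz⟩ := hbb j
  have h1 : (s * s') ^ 2 = (algebraMap F (AlgebraicClosure F) z) ^ 2 := by
    rw [mul_pow, hs, hs2, ← map_mul, hz, map_mul]
    ring
  have hs0 : s' ≠ 0 := by
    rintro rfl
    have h2 : algebraMap F (AlgebraicClosure F) (b' j) = 0 := by
      rw [← hs2]; simp
    exact h'.ne j ((map_eq_zero _).1 h2)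
  have hzK : algebraMap F (AlgebraicClosure F) z ∈ K' := K'.algebraMap_mem z
  rcases sq_eq_sq_iff_eq_or_eq_neg.1 h1 with h2 | h2
  · have h3 : s = algebraMap F (AlgebraicClosure F) z / s' := by
      rw [eq_div_iff hs0, h2]
    rw [h3]
    exact div_mem hzK hs'
  · have h3 : s = -algebraMap F (AlgebraicClosure F) z / s' := by
      rw [eq_div_iff hs0, h2]
    rw [h3]
    exact div_mem (neg_mem hzK) hs'

lemma gen_eq {K K' : IntermediateField F (AlgebraicClosure F)} {b b' : Fin m → F}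
    (h : Gen K b) (h' : Gen K' b') (hbb : ∀ j, IsSquare (b j * b' j)) : K = K' :=
  le_antisymm (gen_sub h h' hbb) (gen_sub h' h fun j => by rw [mul_comm]; exact hbb j)

lemma ramK_iff {K : IntermediateField F (AlgebraicClosure F)} {b : Fin m → F} (h : Gen K b)
    (v : HeightOneSpectrum (𝓞 F)) : RamK K v ↔ ∃ j, Par v (b j) 1 := by
  classical
  constructor
  · rintro ⟨D, hD, ⟨s, hs, hs2⟩, hp⟩
    obtain ⟨S, t, hc⟩ := h.all s hs D hs2
    have ht : t ≠ 0 := by
      rintro rfl
      apply hD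
      rw [hc]; simp
    have hprod : ∏ j ∈ S, b j ≠ 0 := Finset.prod_ne_zero_iff.2 fun j _ => h.ne j
    have h1 : IsSquare (D * ∏ j ∈ S, b j) := ⟨(∏ j ∈ S, b j) * t, by rw [hc]; ring⟩
    rw [par_congr v hD hprod h1, par_prod v b h.ne] at hp
    obtain ⟨j, hj⟩ := Finset.card_pos.1 hp.pos
    exact ⟨j, (mem_filter.1 (mem_inter.1 hj).1).2⟩
  · rintro ⟨j, hj⟩
    exact ⟨b j, h.ne j, h.sqr j, hj⟩

end field

open scoped Classical in
theorem fam : S_FAM := by
  intro F _ _ m hm hU f hf0 hfc C1 hC1 hW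
  obtain ⟨C0, hU⟩ := hU
  obtain ⟨CI, hCI, hinv⟩ := Pool.Agent.Q151.ESB.sum_inv_le F
  set K0 : ℕ := ⌈C0⌉₊ ^ m with hK0
  set M : ℕ := 2 ^ (m - 1) with hM
  refine ⟨K0 * C1 * CI ^ (M - 1) + 1, by positivity, ?_⟩
  intro X 𝒦 bb hX h𝒦 S hS
  set ι := {K // K ∈ 𝒦} with hι
  set b : ι → Fin m → F := fun K => bb K.1 with hb
  have hgen : ∀ i : ι, Gen i.1 (b i) := fun i => (h𝒦 i.1 i.2).1
  set N : HeightOneSpectrum (𝓞 F) → ℝ := fun v => ((Ideal.absNorm v.asIdeal : ℕ) : ℝ) with hN
  have hN1 : ∀ v, 1 ≤ N v := by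
    intro v
    have h1 : Ideal.absNorm v.asIdeal ≠ 0 := by
      rw [Ne, Ideal.absNorm_eq_zero_iff]
      exact v.ne_bot
    have h2 : 1 ≤ Ideal.absNorm v.asIdeal := Nat.one_le_iff_ne_zero.2 h1
    have h3 : (1 : ℝ) ≤ ((Ideal.absNorm v.asIdeal : ℕ) : ℝ) := by exact_mod_cast h2
    exact h3
  set t : ι → HeightOneSpectrum (𝓞 F) → Finset (Fin m) :=
    fun i v => univ.filter fun j => Par v (b i j) 1 with ht
  set sup : ι → Finset (HeightOneSpectrum (𝓞 F)) :=
    fun i => univ.biUnion fun j => sp (b i j) with hsupd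
  have hsup : ∀ i v, v ∈ sup i ↔ t i v ≠ ∅ := by
    intro i v
    rw [hsupd, ht]
    simp only [mem_biUnion, mem_univ, true_and, mem_sp]
    rw [Ne, Finset.filter_eq_empty_iff]
    push Not
    simp
  set o : Finset (Fin m) → Prop := fun T => Odd (T ∩ S).card with ho
  have ho0 : ¬ o ∅ := by
    rw [ho]; simp
  obtain ⟨hM1, hM2⟩ := Pool.Agent.Q210.ESB.card_odd S hS
  have hprod : ∀ i : ι, ∏ j ∈ S, b i j ≠ 0 := fun i =>
    Finset.prod_ne_zero_iff.2 fun j _ => (hgen i).ne j
  set D : ι → F := fun i => rep (∏ j ∈ S, b i j) with hD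
  have hsp : ∀ i v, v ∈ sp (D i) ↔ o (t i v) := by
    intro i v
    rw [mem_sp, hD, par_rep v (hprod i), par_prod v (b i) (hgen i).ne]
  -- the fibres
  have hKf : ∀ i0 ∈ (univ : Finset ι), (univ.filter fun i => t i = t i0).card ≤ K0 := by
    intro i0 _
    set J : Finset ι := univ.filter fun i => t i = t i0 with hJ
    have hcard : ∀ j, (J.image fun i => rep (b i j * b i0 j)).card ≤ ⌈C0⌉₊ := by
      intro j
      have hne : ∀ i : ι, b i j * b i0 j ≠ 0 := fun i =>
        mul_ne_zero ((hgen i).ne j) ((hgen i0).ne j)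
      have h1 := hU (J.image fun i => rep (b i j * b i0 j)) ?_ ?_
      · have h2 : ((J.image fun i => rep (b i j * b i0 j)).card : ℝ) ≤ (⌈C0⌉₊ : ℝ) :=
          h1.trans (Nat.le_ceil _)
        exact_mod_cast h2
      · intro d hd
        obtain ⟨i, hi, rfl⟩ := Finset.mem_image.1 hd
        refine ⟨rep_ne (hne i), ?_⟩
        have h3 : sp (rep (b i j * b i0 j)) = ∅ := by
          rw [Finset.eq_empty_iff_forall_notMem]
          intro v hv
          rw [mem_sp, par_rep v (hne i), par_iff v (hne i),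
            vz_mul v ((hgen i).ne j) ((hgen i0).ne j)] at hv
          have h4 : t i v = t i0 v := congrFun (mem_filter.1 hi).2 v
          have h5 : Par v (b i j) 1 ↔ Par v (b i0 j) 1 := by
            have h6 : j ∈ t i v ↔ j ∈ t i0 v := by rw [h4]
            simpa [ht] using h6
          rw [par_iff v ((hgen i).ne j), par_iff v ((hgen i0).ne j)] at h5
          rw [Int.odd_add, h5] at hv
          by_cases h7 : Odd (vz v (b i0 j))
          · exact (Int.not_even_iff_odd.2 h7) (hv.1 h7)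
          · exact h7 (hv.2 (Int.not_odd_iff_even.1 h7))
        rw [cond_eq, h3, Finset.prod_empty]
      · intro d hd d' hd' hdd
        obtain ⟨i, hi, rfl⟩ := Finset.mem_image.1 hd
        obtain ⟨i', hi', rfl⟩ := Finset.mem_image.1 hd'
        exact rep_nsq (hne i) (hne i') hdd
    have hinj : J.card ≤ (Fintype.piFinset fun j =>
        (J.image fun i => rep (b i j * b i0 j))).card := by
      refine Finset.card_le_card_of_injOn (fun i j => rep (b i j * b i0 j)) ?_ ?_
      · intro i hi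
        rw [Finset.mem_coe, Fintype.mem_piFinset]
        intro j
        exact Finset.mem_image_of_mem _ hi
      · intro i hi i' hi' h
        apply Subtype.ext
        refine gen_eq (hgen i) (hgen i') fun j => ?_
        have h1 : rep (b i j * b i0 j) = rep (b i' j * b i0 j) := congrFun h j
        rw [rep_eq] at h1
        have n1 := (hgen i).ne j
        have n2 := (hgen i').ne j
        have n3 := (hgen i0).ne j
        rcases h1 with ⟨h2, -⟩ | ⟨-, -, z, hz⟩
        · exact absurd h2 (mul_ne_zero n1 n3)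
        · refine ⟨z / b i0 j, ?_⟩
          have h3 : z / b i0 j * (z / b i0 j) = z * z / (b i0 j * b i0 j) := by
            field_simp
          rw [h3, ← hz]
          field_simp
    refine hinj.trans ?_
    rw [Fintype.card_piFinset, hK0]
    calc ∏ j : Fin m, (J.image fun i => rep (b i j * b i0 j)).card
        ≤ ∏ _j : Fin m, ⌈C0⌉₊ := Finset.prod_le_prod' fun j _ => hcard j
      _ = ⌈C0⌉₊ ^ m := by simp
  have hnorm : ∀ i ∈ (univ : Finset ι), ∏ v ∈ sup i, N v ≤ X := by
    intro i _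
    have hset : {v : HeightOneSpectrum (𝓞 F) | RamK i.1 v} = (sup i : Set _) := by
      ext v
      rw [Set.mem_ofPred_eq, ramK_iff (hgen i), Finset.mem_coe, hsupd]
      simp only [mem_biUnion, mem_univ, true_and, mem_sp]
    have h1 : condK i.1 = ∏ v ∈ sup i, Ideal.absNorm v.asIdeal := by
      have h2 : condK i.1 = ∏ᶠ v ∈ {v : HeightOneSpectrum (𝓞 F) | RamK i.1 v},
          Ideal.absNorm v.asIdeal := rfl
      rw [h2, hset, finprod_mem_coe_finset]
    have h3 := (h𝒦 i.1 i.2).2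
    rw [h1, Nat.cast_prod] at h3
    exact h3
  have hWW : ∀ Y : ℝ, 1 ≤ Y → ∀ 𝒟 : Finset F, (∀ d ∈ 𝒟, ∃ i ∈ (univ : Finset ι), D i = d) →
      (∀ d ∈ 𝒟, ∏ v ∈ sp d, N v ≤ Y) →
      ∑ d ∈ 𝒟, (M : ℝ) ^ (sp d).card * f d ≤ C1 * Y * (1 + Real.log Y) ^ (M - 1) := by
    intro Y hY 𝒟 h1 h2
    have h3 := hW Y 𝒟 hY ?_ ?_
    · refine le_trans (le_of_eq ?_) h3
      refine Finset.sum_congr rfl fun d _ => ?_
      rw [omg_eq]
    · intro d hd
      obtain ⟨i, -, rfl⟩ := h1 d hd
      refine ⟨rep_ne (hprod i), ?_⟩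
      rw [cond_eq]
      exact h2 _ hd
    · intro d hd d' hd' hdd
      obtain ⟨i, -, rfl⟩ := h1 d hd
      obtain ⟨i', -, rfl⟩ := h1 d' hd'
      exact rep_nsq (hprod i) (hprod i') hdd
  have hI : ∀ 𝒜 : Finset (Finset (HeightOneSpectrum (𝓞 F))), (∀ A ∈ 𝒜, ∏ v ∈ A, N v ≤ X) →
      ∑ A ∈ 𝒜, 1 / ∏ v ∈ A, N v ≤ CI * (1 + Real.log X) := by
    intro 𝒜 h1
    have h2 := hinv X hX (𝒜.image fun A => ∏ v ∈ A, v.asIdeal) ?_
    · rw [Finset.sum_image (fun A _ B _ h => Pool.Agent.Q151.ESB.prod_ideal_inj h)] at h2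
      refine le_trans (le_of_eq ?_) h2
      refine Finset.sum_congr rfl fun A _ => ?_
      rw [Pool.Agent.Q151.ESB.norm_prod_ideal]
    · intro I hI
      obtain ⟨A, hA, rfl⟩ := Finset.mem_image.1 hI
      refine ⟨Pool.Agent.Q151.ESB.prod_ideal_ne A, ?_⟩
      rw [Pool.Agent.Q151.ESB.norm_prod_ideal]
      exact h1 A hA
  have hM1' : (@Finset.filter _ o (fun a => Classical.propDecidable (o a)) univ).card = M := by
    rw [hM, ← hM1]
    refine congrArg Finset.card ?_
    ext T
    simp only [Finset.mem_filter, ho]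
  have hmain := Pool.Agent.Q210.ESB.core' N hN1 (univ : Finset ι) t sup hsup o ho0 M (M - 1)
    hM1' (by
      rw [hM, ← hM2]
      refine congrArg Finset.card ?_
      ext T
      simp only [Finset.mem_filter, ho])
    D sp hsp K0 hKf X hX hnorm f (fun i _ => hf0 _) C1 hC1 hWW CI hI
  have hsum : ∑ K ∈ 𝒦, f (∏ j ∈ S, bb K j) = ∑ i ∈ (univ : Finset ι), f (D i) := by
    rw [← Finset.sum_coe_sort 𝒦 (fun K => f (∏ j ∈ S, bb K j))]
    refine Finset.sum_congr rfl fun i _ => ?_
    exact (hfc _ _ (rep_ne (hprod i)) (hprod i) (rep_sq (hprod i))).symm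
  rw [hsum]
  refine hmain.trans ?_
  have hlog : 0 ≤ Real.log X := Real.log_nonneg hX
  have hexp : (M - 1) + (M - 1) = 2 ^ m - 2 := by
    obtain ⟨k, rfl⟩ : ∃ k, m = k + 1 := ⟨m - 1, by omega⟩
    have h1 : 2 ^ (k + 1) = 2 * 2 ^ k := by ring
    rw [hM, Nat.add_sub_cancel, h1]
    omega
  have hX0 : 0 ≤ X := by linarith
  calc (K0 : ℝ) * C1 * X * (1 + Real.log X) ^ (M - 1) * (CI * (1 + Real.log X)) ^ (M - 1)
      = (K0 * C1 * CI ^ (M - 1)) * X * (1 + Real.log X) ^ ((M - 1) + (M - 1)) := by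
        rw [mul_pow, pow_add]; ring
    _ ≤ (K0 * C1 * CI ^ (M - 1) + 1) * X * (1 + Real.log X) ^ (2 ^ m - 2) := by
        rw [hexp]
        have h2 : 0 ≤ (1 + Real.log X) ^ (2 ^ m - 2) := by positivity
        refine mul_le_mul_of_nonneg_right ?_ h2
        refine mul_le_mul_of_nonneg_right ?_ hX0
        linarith

end Pool.Agent.H643.ESB
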